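import Pool.Agent.Q325.MatchNP

/-!
# Two edge-disjoint perfect matchings, the first one monochromatic: NP-complete

Definitions: `Pool/Agent/Q325/MatchDefs.lean` (`ent`, `IsInst`, `COL2PM`); complexity classes:
`Pool/Agent/NPC/Defs.lean`.

The reduction is from 3SAT. A variable is a long cycle of edges of colour 1, without other edges of
colour 1 at its vertices, so that the first matching contains one of the two alternating classes of
its edges. A clause is an edge `s t` of colour 1, which has to be in the first matching. For every
literal of the clause, `s` and `t` are joined by edges of colour 2 to the ends of an edge `e` of the
cycle of the variable, `e` being in the first or the second class for a positive or negative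
literal. The second matching has to leave `s` through such an edge, and then the edge `e` is not in
the first matching, since the other neighbours on the cycle have no edges of colour 2.
-/

set_option autoImplicit false

namespace Pool.Agent.Results.MP_439cda_lc.ColTwoPMComplete

open Pool.Agent.NPC Pool.Agent.Q325.TwoPM

/-- **COL-2PM is NP-complete.** -/
theorem result : InNPP COL2PM ∧ NPHardP COL2PM :=
  ⟨Pool.Agent.NPC.Q325TwoPM.inNPP, Pool.Agent.NPC.Q325TwoPM.hard⟩

end Pool.Agent.Results.MP_439cda_lc.ColTwoPMComplete
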